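import Mathlib

/-!
# Two-generated finite semigroups with connected commuting graphs of large diameter

For even `N = 2 * n` we take the semigroup of self-maps of `{0, ..., N}` generated by
`i ↦ ⌊i / 2⌋` and `i ↦ ⌊(i + N + 1) / 2⌋`.  Every member is order preserving and nearly halves
distances, so its fixed points form a nonempty set of at most two neighbouring points, and
commuting members share a fixed point.  This bounds from below the distance between the constant
maps `0` and `N`.  On the other hand all the constant maps lie in the semigroup and each pair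
`i, i + 1` is fixed by a member, so the commuting graph is connected.
-/

namespace Pool.Agent.Results.MP_cf426b_al.TwoGenerated

/-- The commuting graph of a semigroup `S`: its vertices are the elements outside the center,
and two distinct vertices are adjacent exactly when they commute. -/
def commutingGraph (S : Type) [Semigroup S] : SimpleGraph {x : S // x ∉ Set.center S} where
  Adj x y := x ≠ y ∧ (x : S) * (y : S) = (y : S) * (x : S)
  symm := ⟨fun _ _ h => ⟨h.1.symm, h.2.symm⟩⟩
  loopless := ⟨fun _ h => h.1 rfl⟩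

/-- Order preserving maps which nearly halve distances. -/
def Good {m : ℕ} (h : Fin m → Fin m) : Prop :=
  ∀ x y : Fin m, (x : ℕ) ≤ y → (h x : ℕ) ≤ h y ∧ 2 * (h y : ℕ) + x ≤ 2 * (h x : ℕ) + y + 1

lemma Good.comp {m : ℕ} {h k : Fin m → Fin m} (hh : Good h) (hk : Good k) : Good (h ∘ k) := by
  intro x y hxy
  obtain ⟨h1, h2⟩ := hk x y hxy
  obtain ⟨h3, h4⟩ := hh _ _ h1
  simp only [Function.comp]
  omega

lemma Good.exists_fixed {m : ℕ} {h : Fin (m + 1) → Fin (m + 1)} (hh : Good h) :
    ∃ x, h x = x := by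
  have hex : ∃ k : ℕ, ∃ hk : k < m + 1, (h ⟨k, hk⟩ : ℕ) ≤ k :=
    ⟨m, Nat.lt_succ_self m, Nat.lt_succ_iff.mp (h ⟨m, _⟩).2⟩
  classical
  obtain ⟨hk, hk2⟩ := Nat.find_spec hex
  set k := Nat.find hex with hkdef
  refine ⟨⟨k, hk⟩, ?_⟩
  have h1 := (hh (h ⟨k, hk⟩) ⟨k, hk⟩ hk2).1
  by_contra hne
  have hlt : (h ⟨k, hk⟩ : ℕ) < k := by
    rcases Nat.lt_or_ge (h ⟨k, hk⟩ : ℕ) k with h' | h'
    · exact h'
    · exact absurd (Fin.ext (le_antisymm hk2 h')) hne
  exact Nat.find_min hex hlt ⟨(h ⟨k, hk⟩).2, h1⟩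

lemma Good.fixed_close {m : ℕ} {h : Fin m → Fin m} (hh : Good h) {x y : Fin m}
    (hx : h x = x) (hy : h y = y) : (y : ℕ) ≤ x + 1 := by
  rcases Nat.le_total (x : ℕ) y with hxy | hxy
  · have := (hh x y hxy).2
    rw [hx, hy] at this
    omega
  · omega

lemma Good.common_fixed {m : ℕ} {h k : Fin (m + 1) → Fin (m + 1)} (hh : Good h) (hk : Good k)
    (hc : h ∘ k = k ∘ h) : ∃ z, h z = z ∧ k z = z := by
  obtain ⟨x, hx⟩ := hh.exists_fixed
  have hc' : ∀ z, h (k z) = k (h z) := fun z => congrFun hc z
  have key : ∀ z, h z = z → h (k z) = k z := fun z hz => by rw [hc', hz]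
  -- among the fixed points of `h`, follow the orbit of `k`
  have h1 := key x hx
  have h2 := key _ h1
  have c1 := hh.fixed_close hx h1
  have c2 := hh.fixed_close h1 hx
  have c3 := hh.fixed_close h1 h2
  have c4 := hh.fixed_close h2 h1
  have c5 := hh.fixed_close hx h2
  have c6 := hh.fixed_close h2 hx
  rcases Nat.lt_trichotomy (k x : ℕ) x with hlt | heq | hgt
  · have m1 := (hk (k x) x hlt.le).1
    have : (k (k x) : ℕ) = k x := by omega
    exact ⟨k x, h1, Fin.ext this⟩
  · exact ⟨x, hx, Fin.ext heq⟩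
  · have m1 := (hk x (k x) hgt.le).1
    have : (k (k x) : ℕ) = k x := by omega
    exact ⟨k x, h1, Fin.ext this⟩

variable (n : ℕ)

/-- The first generator, `i ↦ ⌊i / 2⌋` on `{0, ..., 2 n}`. -/
def f : Function.End (Fin (2 * n + 1)) := fun i => ⟨(i : ℕ) / 2, by have := i.2; omega⟩

/-- The second generator, `i ↦ ⌊(i + 2 n + 1) / 2⌋` on `{0, ..., 2 n}`. -/
def g : Function.End (Fin (2 * n + 1)) := fun i => ⟨((i : ℕ) + 2 * n + 1) / 2, by
  have := i.2; omega⟩

lemma good_f : Good (f n) := by
  intro x y hxy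
  simp only [f]
  omega

lemma good_g : Good (g n) := by
  intro x y hxy
  simp only [g]
  omega

/-- The two-generated semigroup of transformations. -/
def T : Subsemigroup (Function.End (Fin (2 * n + 1))) := Subsemigroup.closure {f n, g n}

lemma f_mem : f n ∈ T n := Subsemigroup.subset_closure (by simp)

lemma g_mem : g n ∈ T n := Subsemigroup.subset_closure (by simp)

lemma good_of_mem {h : Function.End (Fin (2 * n + 1))} (hh : h ∈ T n) : Good h := by
  induction hh using Subsemigroup.closure_induction with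
  | mem x hx =>
    rcases hx with rfl | rfl
    · exact good_f n
    · exact good_g n
  | mul x y _ _ hx hy => exact Good.comp hx hy

lemma closure_gen :
    Subsemigroup.closure ({⟨f n, f_mem n⟩, ⟨g n, g_mem n⟩} : Set (T n)) = ⊤ := by
  rw [eq_top_iff]
  rintro ⟨x, hx⟩ -
  induction hx using Subsemigroup.closure_induction with
  | mem x hx =>
    apply Subsemigroup.subset_closure
    rcases hx with rfl | rfl
    · exact Or.inl rfl
    · exact Or.inr rfl
  | mul x y hx hy ihx ihy => exact Subsemigroup.mul_mem _ ihx ihy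

/-- Constant maps. -/
def cst (x : Fin (2 * n + 1)) : Function.End (Fin (2 * n + 1)) := fun _ => x

lemma mul_cst (h : Function.End (Fin (2 * n + 1))) (x : Fin (2 * n + 1)) :
    h * cst n x = cst n (h x) := rfl

lemma cst_mul (h : Function.End (Fin (2 * n + 1))) (x : Fin (2 * n + 1)) :
    cst n x * h = cst n x := rfl

lemma cst_zero_mem : cst n 0 ∈ T n := by
  have key : ∀ k : ℕ, ∃ h ∈ T n, ∀ x, (h x : ℕ) = (x : ℕ) / 2 ^ (k + 1) := by
    intro k
    induction k with
    | zero => exact ⟨f n, f_mem n, fun x => by simp [f]⟩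
    | succ k ih =>
      obtain ⟨h, hh, hx⟩ := ih
      refine ⟨f n * h, (T n).mul_mem (f_mem n) hh, fun x => ?_⟩
      change (f n (h x) : ℕ) = _
      simp only [f, hx]
      rw [Nat.div_div_eq_div_mul, ← pow_succ]
  obtain ⟨h, hh, hx⟩ := key (2 * n)
  have : h = cst n 0 := by
    funext x
    apply Fin.ext
    rw [hx]
    simp only [cst, Fin.val_zero]
    apply Nat.div_eq_of_lt
    calc (x : ℕ) < 2 * n + 1 := x.2
      _ < 2 ^ (2 * n + 1) := Nat.lt_two_pow_self
  rw [← this]
  exact hh

/-- The map induced on neighbouring pairs `i, i + 1`, encoded by `i`. -/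
def sig (i : Fin (2 * n)) : Fin (2 * n) :=
  ⟨(i : ℕ) / 2 + (if (i : ℕ) % 2 = 0 then n else 0), by have := i.2; split_ifs <;> omega⟩

lemma sig_injective : Function.Injective (sig n) := by
  intro i j hij
  have h := congrArg Fin.val hij
  simp only [sig] at h
  apply Fin.ext
  have := i.2
  have := j.2
  split_ifs at h <;> omega

/-- one letter step on pairs -/
lemma step (i : Fin (2 * n)) : ∃ h ∈ T n,
    h i.castSucc = (sig n i).castSucc ∧ h i.succ = (sig n i).succ := by
  by_cases hi : (i : ℕ) % 2 = 0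
  · refine ⟨g n, g_mem n, ?_, ?_⟩ <;> apply Fin.ext <;>
      simp only [g, sig, hi, if_true, Fin.val_castSucc, Fin.val_succ] <;> omega
  · refine ⟨f n, f_mem n, ?_, ?_⟩ <;> apply Fin.ext <;>
      simp only [f, sig, hi, if_false, Fin.val_castSucc, Fin.val_succ] <;> omega

lemma steps (i : Fin (2 * n)) (k : ℕ) : ∃ h ∈ T n,
    h i.castSucc = ((sig n)^[k + 1] i).castSucc ∧ h i.succ = ((sig n)^[k + 1] i).succ := by
  induction k with
  | zero => simpa using step n i
  | succ k ih =>
    obtain ⟨h, hh, h1, h2⟩ := ih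
    obtain ⟨h', hh', h1', h2'⟩ := step n ((sig n)^[k + 1] i)
    refine ⟨h' * h, (T n).mul_mem hh' hh, ?_, ?_⟩
    · rw [Function.iterate_succ_apply']
      change h' (h _) = _
      rw [h1, h1']
    · rw [Function.iterate_succ_apply']
      change h' (h _) = _
      rw [h2, h2']

/-- Each neighbouring pair is fixed pointwise by a member of the semigroup. -/
lemma exists_fix_pair (i : Fin (2 * n)) : ∃ h ∈ T n,
    h i.castSucc = i.castSucc ∧ h i.succ = i.succ := by
  have hper : i ∈ Function.periodicPts (sig n) :=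
    (sig_injective n).mem_periodicPts i
  obtain ⟨k, hk, hk2⟩ := hper
  obtain ⟨k, rfl⟩ : ∃ m, k = m + 1 := ⟨k - 1, by omega⟩
  obtain ⟨h, hh, h1, h2⟩ := steps n i k
  have hk3 : (sig n)^[k + 1] i = i := hk2
  rw [hk3] at h1 h2
  exact ⟨h, hh, h1, h2⟩

/-- Iterating a member of the semigroup brings the images of all points within distance one. -/
lemma exists_fix_pair' (i : Fin (2 * n)) : ∃ h ∈ T n,
    h i.castSucc = i.castSucc ∧ h i.succ = i.succ ∧ h 0 = i.castSucc := by
  obtain ⟨w, hw, w1, w2⟩ := exists_fix_pair n i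
  have hgood := good_of_mem n hw
  have key : ∀ k : ℕ, ∃ h ∈ T n, h i.castSucc = i.castSucc ∧ h i.succ = i.succ ∧
      (h (Fin.last (2 * n)) : ℕ) ≤ h 0 + 1 + (2 * n - k) := by
    intro k
    induction k with
    | zero =>
      refine ⟨w, hw, w1, w2, ?_⟩
      have := (w (Fin.last (2 * n))).2
      omega
    | succ k ih =>
      obtain ⟨h, hh, h1, h2, h3⟩ := ih
      refine ⟨w * h, (T n).mul_mem hw hh, ?_, ?_, ?_⟩
      · change w (h _) = _
        rw [h1, w1]
      · change w (h _) = _
        rw [h2, w2]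
      · change (w (h _) : ℕ) ≤ w (h 0) + 1 + _
        have hm := (good_of_mem n hh 0 (Fin.last (2 * n)) (by simp)).1
        have := (hgood _ _ hm)
        omega
  obtain ⟨h, hh, h1, h2, h3⟩ := key (2 * n)
  refine ⟨h, hh, h1, h2, ?_⟩
  have hg := good_of_mem n hh
  have a1 := (hg 0 i.castSucc (by simp)).1
  have a2 := (hg i.succ (Fin.last (2 * n)) (by simp only [Fin.val_succ, Fin.val_last]; have := i.2; omega)).1
  rw [h1] at a1
  rw [h2] at a2
  simp only [Fin.val_castSucc, Fin.val_succ] at a1 a2
  apply Fin.ext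
  simp only [Fin.val_castSucc]
  omega

lemma cst_mem (hn : 0 < n) (x : Fin (2 * n + 1)) : cst n x ∈ T n := by
  have h1 : ∀ i : Fin (2 * n), cst n i.castSucc ∈ T n := by
    intro i
    obtain ⟨h, hh, _, _, h3⟩ := exists_fix_pair' n i
    rw [← h3, ← mul_cst]
    exact (T n).mul_mem hh (cst_zero_mem n)
  by_cases hx : (x : ℕ) < 2 * n
  · have : x = (⟨x, hx⟩ : Fin (2 * n)).castSucc := Fin.ext rfl
    rw [this]
    exact h1 _
  · have hx' : x = g n (⟨2 * n - 1, by omega⟩ : Fin (2 * n)).castSucc := by
      apply Fin.ext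
      have := x.2
      simp only [g, Fin.val_castSucc]
      omega
    rw [hx', ← mul_cst]
    exact (T n).mul_mem (g_mem n) (h1 _)

lemma not_central (hn : 0 < n) (h : T n) : h ∉ Set.center (T n) := by
  intro hc
  rw [Semigroup.mem_center_iff] at hc
  have key : ∀ x, (h : Function.End (Fin (2 * n + 1))) x = x := by
    intro x
    have := congrArg Subtype.val (hc ⟨cst n x, cst_mem n hn x⟩)
    have := congrFun (show cst n x * h.1 = h.1 * cst n x from this) 0
    exact this.symm
  have h2 := (good_of_mem n h.2 0 (Fin.last (2 * n)) (by simp)).2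
  rw [key, key] at h2
  simp only [Fin.val_zero, Fin.val_last] at h2
  omega

/-- A member of the semigroup as a vertex. -/
def vtx (hn : 0 < n) (h : T n) : {x : T n // x ∉ Set.center (T n)} := ⟨h, not_central n hn h⟩

lemma reach_cst (hn : 0 < n) (h : T n) (x : Fin (2 * n + 1))
    (hx : (h : Function.End (Fin (2 * n + 1))) x = x) :
    (commutingGraph (T n)).Reachable (vtx n hn h) (vtx n hn ⟨cst n x, cst_mem n hn x⟩) := by
  by_cases he : vtx n hn h = vtx n hn ⟨cst n x, cst_mem n hn x⟩
  · rw [he]
  · apply SimpleGraph.Adj.reachable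
    refine ⟨he, ?_⟩
    apply Subtype.ext
    change (h : Function.End (Fin (2 * n + 1))) * cst n x = cst n x * h
    rw [mul_cst, cst_mul, hx]

lemma reach_zero (hn : 0 < n) (k : ℕ) (hk : k < 2 * n + 1) :
    (commutingGraph (T n)).Reachable (vtx n hn ⟨cst n ⟨k, hk⟩, cst_mem n hn _⟩)
      (vtx n hn ⟨cst n 0, cst_mem n hn _⟩) := by
  induction k with
  | zero => exact SimpleGraph.Reachable.refl _
  | succ k ih =>
    refine SimpleGraph.Reachable.trans ?_ (ih (by omega))
    obtain ⟨h, hh, h1, h2⟩ := exists_fix_pair n ⟨k, by omega⟩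
    have r1 := reach_cst n hn ⟨h, hh⟩ _ h1
    have r2 := reach_cst n hn ⟨h, hh⟩ _ h2
    exact r2.symm.trans r1

lemma connected (hn : 0 < n) : (commutingGraph (T n)).Connected := by
  have : Nonempty {x : T n // x ∉ Set.center (T n)} := ⟨vtx n hn ⟨f n, f_mem n⟩⟩
  refine SimpleGraph.Connected.mk ?_
  have key : ∀ u, (commutingGraph (T n)).Reachable u (vtx n hn ⟨cst n 0, cst_mem n hn _⟩) := by
    intro u
    obtain ⟨x, hx⟩ := (good_of_mem n u.1.2).exists_fixed
    exact (reach_cst n hn u.1 x hx).trans (reach_zero n hn x x.2)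
  intro u v
  exact (key u).trans (key v).symm

lemma walk_bound {u v : {x : T n // x ∉ Set.center (T n)}}
    (p : (commutingGraph (T n)).Walk u v) (x y : Fin (2 * n + 1))
    (hx : (u.1 : Function.End (Fin (2 * n + 1))) x = x)
    (hy : (v.1 : Function.End (Fin (2 * n + 1))) y = y) :
    (y : ℕ) ≤ x + p.length + 1 := by
  induction p generalizing x with
  | nil => exact (good_of_mem n (Subtype.prop _)).fixed_close hx hy
  | @cons a b c hab p ih =>
    obtain ⟨z, hz1, hz2⟩ := (good_of_mem n a.1.2).common_fixed (good_of_mem n b.1.2)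
      (congrArg Subtype.val hab.2)
    have h1 := ih z hz2 hy
    have h2 := (good_of_mem n a.1.2).fixed_close hx hz1
    rw [SimpleGraph.Walk.length_cons]
    omega

/-- **Answer to Q1.**  For every `D` there is a finite semigroup generated by two elements whose
commuting graph is connected and has diameter at least `D`. -/
theorem result : ∀ D : ℕ, ∃ (S : Type) (_ : Semigroup S), Finite S ∧
    (∃ a b : S, Subsemigroup.closure {a, b} = ⊤) ∧
    (commutingGraph S).Connected ∧ (D : ℕ∞) ≤ (commutingGraph S).ediam := by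
  intro D
  have hn : 0 < D + 1 := Nat.succ_pos D
  refine ⟨T (D + 1), inferInstance, ?_, ⟨⟨f _, f_mem _⟩, ⟨g _, g_mem _⟩, ?_⟩,
    connected _ hn, ?_⟩
  · have : Finite (Function.End (Fin (2 * (D + 1) + 1))) :=
      inferInstanceAs (Finite (Fin (2 * (D + 1) + 1) → Fin (2 * (D + 1) + 1)))
    exact Subtype.finite
  · exact closure_gen _
  · set u := vtx (D + 1) hn ⟨cst _ 0, cst_mem _ hn _⟩
    set v := vtx (D + 1) hn ⟨cst _ (Fin.last _), cst_mem _ hn _⟩
    refine le_trans ?_ (SimpleGraph.edist_le_ediam (u := u) (v := v))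
    rw [SimpleGraph.edist]
    refine le_iInf fun p => ?_
    have := walk_bound (D + 1) p 0 (Fin.last _) rfl rfl
    simp only [Fin.val_zero, Fin.val_last] at this
    exact_mod_cast (by omega : D ≤ p.length)

end Pool.Agent.Results.MP_cf426b_al.TwoGenerated
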